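import Pool.Agent.Helper600R2.Cnt.Defs

/-!
The counting principle modulo `q` has refutations by disjunctions of literals if `q` does not divide
the number of points.
-/

set_option autoImplicit false

namespace Pool.Agent.L5helper62.Frege

open Finset Pool.Agent.Helper600R2.Cnt

/-- All lines are axioms or follow by local inferences. -/
def Deriv (c : ℕ) {p q N T : ℕ} (L : Fin T → Fm p (Var q N)) : Prop :=
  ∀ i, IsAxiom (L i) ∨ LocalInf c L i

theorem self_mem_sub {p : ℕ} {α : Type} (φ : Fm p α) : φ ∈ φ.sub := by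
  classical
  cases φ <;> simp [Fm.sub]

theorem mem_allSub {p T : ℕ} {α : Type} (L : Fin T → Fm p α) (i : Fin T) : L i ∈ allSub L := by
  classical
  simp only [allSub, mem_biUnion, mem_univ, true_and]
  exact ⟨i, self_mem_sub _⟩

theorem allSub_mono {p T T' : ℕ} {α : Type} (L : Fin T → Fm p α) (L' : Fin T' → Fm p α)
    (f : Fin T → Fin T') (h : ∀ i, L' (f i) = L i) : allSub L ⊆ allSub L' := by
  classical
  intro φ hφ
  simp only [allSub, mem_biUnion, mem_univ, true_and] at hφ ⊢
  obtain ⟨i, hi⟩ := hφ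
  exact ⟨f i, by rw [h]; exact hi⟩

theorem localInf_map {c p T T' : ℕ} {α : Type} (L : Fin T → Fm p α) (L' : Fin T' → Fm p α)
    (f : Fin T → Fin T') (hf : StrictMono f) (h : ∀ i, L' (f i) = L i) (i : Fin T)
    (hi : LocalInf c L i) : LocalInf c L' (f i) := by
  classical
  obtain ⟨P, Q, hP, hQ, hlt, hsub, himp⟩ := hi
  refine ⟨P.image f, Q, card_image_le.trans hP, hQ, ?_, hsub.trans (allSub_mono L L' f h), ?_⟩
  · intro j hj
    obtain ⟨j', hj', rfl⟩ := mem_image.1 hj
    exact hf (hlt j' hj')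
  · intro V hV hV2 hV3
    rw [h]
    refine himp V hV hV2 fun j hj => ?_
    rw [← h]
    exact hV3 _ (mem_image_of_mem f hj)

/-- A formula is derivable with disjunctions of literals. -/
def Derivable (c : ℕ) {p q N : ℕ} (φ : Fm p (Var q N)) : Prop :=
  ∃ (T : ℕ) (L : Fin T → Fm p (Var q N)), Deriv c L ∧ (∀ i, (L i).depth ≤ 2) ∧
    (∀ χ ∈ allSub L, χ.tops = ∅) ∧ ∃ i, L i = φ

theorem derivable_axiom {c p q N : ℕ} (φ : Fm p (Var q N)) (h : IsAxiom φ) (hd : φ.depth ≤ 2)
    (ht : ∀ χ ∈ φ.sub, χ.tops = ∅) : Derivable c φ := by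
  classical
  refine ⟨1, fun _ => φ, fun _ => Or.inl h, fun _ => hd, ?_, 0, rfl⟩
  intro χ hχ
  simp only [allSub, mem_biUnion, mem_univ, true_and] at hχ
  obtain ⟨_, hi⟩ := hχ
  exact ht χ hi

theorem derivable_step {p q N : ℕ} (φ₁ φ₂ φ : Fm p (Var q N)) (h₁ : Derivable 4 φ₁)
    (h₂ : Derivable 4 φ₂) (hd : φ.depth ≤ 2) (ht : ∀ χ ∈ φ.sub, χ.tops = ∅)
    (ψ : Fm p (Var q N)) (hψ : ψ ∈ φ₂.sub)
    (himp : ∀ V : Fm p (Var q N) → Bool, RespMod V → RespAt V φ₁ → RespAt V φ₂ → RespAt V φ →
      RespAt V ψ → V φ₁ = true → V φ₂ = true → V φ = true) : Derivable 4 φ := by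
  classical
  obtain ⟨T₁, L₁, hD₁, hd₁, ht₁, i₁, hi₁⟩ := h₁
  obtain ⟨T₂, L₂, hD₂, hd₂, ht₂, i₂, hi₂⟩ := h₂
  set L : Fin (T₁ + T₂ + 1) → Fm p (Var q N) := Fin.snoc (α := fun _ => Fm p (Var q N))
    (Fin.append L₁ L₂) φ with hL
  let f₁ : Fin T₁ → Fin (T₁ + T₂ + 1) := fun i => (Fin.castAdd T₂ i).castSucc
  let f₂ : Fin T₂ → Fin (T₁ + T₂ + 1) := fun i => (Fin.natAdd T₁ i).castSucc
  have hf₁ : ∀ i, L (f₁ i) = L₁ i := fun i => by
    rw [hL]
    simp only [f₁, Fin.snoc_castSucc, Fin.append_left]
  have hf₂ : ∀ i, L (f₂ i) = L₂ i := fun i => by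
    rw [hL]
    simp only [f₂, Fin.snoc_castSucc, Fin.append_right]
  have hlast : L (Fin.last _) = φ := by
    rw [hL, Fin.snoc_last]
  have hm₁ : StrictMono f₁ := fun i j hij => by
    simp only [f₁, Fin.lt_def, Fin.val_castSucc, Fin.val_castAdd]
    exact hij
  have hm₂ : StrictMono f₂ := fun i j hij => by
    simp only [f₂, Fin.lt_def, Fin.val_castSucc, Fin.val_natAdd]
    have : (i : ℕ) < j := hij
    omega
  have hcases : ∀ i, (∃ j, i = f₁ j) ∨ (∃ j, i = f₂ j) ∨ i = Fin.last _ := by
    intro i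
    refine Fin.lastCases (Or.inr (Or.inr rfl)) (fun j => ?_) i
    refine Fin.addCases (fun j' => Or.inl ⟨j', rfl⟩) (fun j' => Or.inr (Or.inl ⟨j', rfl⟩)) j
  refine ⟨_, L, ?_, ?_, ?_, Fin.last _, hlast⟩
  · intro i
    rcases hcases i with ⟨j, rfl⟩ | ⟨j, rfl⟩ | rfl
    · rcases hD₁ j with h | h
      · left
        rw [hf₁]
        exact h
      · right
        exact localInf_map L₁ L f₁ hm₁ hf₁ j h
    · rcases hD₂ j with h | h
      · left
        rw [hf₂]
        exact h
      · right
        exact localInf_map L₂ L f₂ hm₂ hf₂ j h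
    · right
      refine ⟨{f₁ i₁, f₂ i₂}, {φ₁, φ₂, φ, ψ}, card_le_two.trans (by norm_num), card_le_four, ?_, ?_,
        ?_⟩
      · intro j hj
        rcases mem_insert.1 hj with rfl | hj
        · exact Fin.castSucc_lt_last _
        · rw [mem_singleton.1 hj]
          exact Fin.castSucc_lt_last _
      · have e1 : φ₁ ∈ allSub L := by
          have := mem_allSub L (f₁ i₁)
          rwa [hf₁, hi₁] at this
        have e2 : φ₂ ∈ allSub L := by
          have := mem_allSub L (f₂ i₂)
          rwa [hf₂, hi₂] at this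
        have e3 : φ ∈ allSub L := by
          have := mem_allSub L (Fin.last _)
          rwa [hlast] at this
        have e4 : ψ ∈ allSub L := by
          simp only [allSub, mem_biUnion, mem_univ, true_and]
          exact ⟨f₂ i₂, by rw [hf₂, hi₂]; exact hψ⟩
        intro χ hχ
        simp only [mem_insert, mem_singleton] at hχ
        rcases hχ with rfl | rfl | rfl | rfl
        · exact e1
        · exact e2
        · exact e3
        · exact e4
      · intro V hV hQ hP
        rw [hlast]
        refine himp V hV (hQ _ (by simp)) (hQ _ (by simp)) (hQ _ (by simp)) (hQ _ (by simp)) ?_ ?_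
        · have := hP (f₁ i₁) (by simp)
          rwa [hf₁, hi₁] at this
        · have := hP (f₂ i₂) (by simp)
          rwa [hf₂, hi₂] at this
  · intro i
    rcases hcases i with ⟨j, rfl⟩ | ⟨j, rfl⟩ | rfl
    · rw [hf₁]; exact hd₁ j
    · rw [hf₂]; exact hd₂ j
    · rw [hlast]; exact hd
  · intro χ hχ
    simp only [allSub, mem_biUnion, mem_univ, true_and] at hχ
    obtain ⟨i, hi⟩ := hχ
    rcases hcases i with ⟨j, rfl⟩ | ⟨j, rfl⟩ | rfl
    · rw [hf₁] at hi
      exact ht₁ χ (by
        simp only [allSub, mem_biUnion, mem_univ, true_and]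
        exact ⟨j, hi⟩)
    · rw [hf₂] at hi
      exact ht₂ χ (by
        simp only [allSub, mem_biUnion, mem_univ, true_and]
        exact ⟨j, hi⟩)
    · rw [hlast] at hi
      exact ht χ hi

/-- the literal which is false if the variable has the value `b` -/
def lit {p : ℕ} {α : Type} (a : α) (b : Bool) : Fm p α := if b then .neg (.var a) else .var a

theorem lit_depth {p : ℕ} {α : Type} (a : α) (b : Bool) : (lit a b : Fm p α).depth ≤ 1 := by
  cases b <;> simp [lit, Fm.depth]

theorem lit_sub {p : ℕ} {α : Type} (a : α) (b : Bool) : ∀ χ ∈ (lit a b : Fm p α).sub,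
    χ.tops = ∅ := by
  classical
  intro χ hχ
  cases b
  · simp only [lit, Bool.false_eq_true, if_false, Fm.sub, mem_singleton] at hχ
    rw [hχ]
    rfl
  · simp only [lit, if_true, Fm.sub, mem_insert, mem_singleton] at hχ
    rcases hχ with rfl | rfl <;> rfl

theorem or_depth {p k : ℕ} {α : Type} (a : Fin k → α) (s : Fin k → Bool) :
    (Fm.or k fun j => (lit (a j) (s j) : Fm p α)).depth ≤ 2 := by
  simp only [Fm.depth]
  have : (univ.sup fun j => (lit (a j) (s j) : Fm p α).depth) ≤ 1 :=
    Finset.sup_le fun j _ => lit_depth _ _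
  omega

theorem or_sub {p k : ℕ} {α : Type} (a : Fin k → α) (s : Fin k → Bool) :
    ∀ χ ∈ (Fm.or k fun j => (lit (a j) (s j) : Fm p α)).sub, χ.tops = ∅ := by
  classical
  intro χ hχ
  simp only [Fm.sub, mem_insert, mem_biUnion, mem_univ, true_and] at hχ
  rcases hχ with rfl | ⟨j, hj⟩
  · simp only [Fm.tops]
    ext x
    simp only [mem_biUnion, mem_univ, true_and, notMem_empty, iff_false, not_exists]
    intro j hj
    rw [lit_sub _ _ _ (self_mem_sub _)] at hj
    exact absurd hj (notMem_empty _)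
  · exact lit_sub _ _ χ hj

/-- A total assignment falsifies an axiom. -/
theorem falsifies {q N : ℕ} (hqN : ¬ q ∣ N) (s : Var q N → Bool) :
    (∃ v : Fin N, ∀ e : Var q N, v ∈ e.1 → s e = false) ∨
      ∃ e f : Var q N, e ≠ f ∧ ¬ Disjoint e.1 f.1 ∧ s e = true ∧ s f = true := by
  classical
  by_contra hcon
  push Not at hcon
  obtain ⟨h1, h2⟩ := hcon
  apply hqN
  set S : Finset (Var q N) := univ.filter fun e => s e = true with hS
  have hu : S.biUnion (fun e => e.1) = univ := by
    ext v
    simp only [mem_biUnion, mem_univ, iff_true]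
    obtain ⟨e, he, hse⟩ := h1 v
    refine ⟨e, ?_, he⟩
    rw [hS, mem_filter]
    exact ⟨mem_univ _, by simpa using hse⟩
  have hc := Finset.card_biUnion (s := S) (t := fun e => e.1) (by
    intro e he f hf hef
    by_contra hd
    rw [mem_coe, hS, mem_filter] at he hf
    exact absurd hf.2 (h2 e f hef hd he.2))
  rw [hu, card_univ, Fintype.card_fin] at hc
  rw [hc, Finset.sum_congr rfl fun e _ => e.2, sum_const, smul_eq_mul]
  exact Dvd.intro_left _ rfl

/-- All clauses of a partial assignment of the first variables are derivable. -/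
theorem derivable_clause {p q N M : ℕ} (hqN : ¬ q ∣ N) (a : Fin M ≃ Var q N) :
    ∀ r k : ℕ, ∀ hk : k + r = M, ∀ s : Fin k → Bool,
      Derivable 4 (Fm.or k fun j => (lit (a (Fin.castLE (by omega) j)) (s j) : Fm p (Var q N))) := by
  intro r
  induction r with
  | zero =>
    intro k hk s
    rw [add_zero] at hk
    subst hk
    refine derivable_axiom _ ?_ (or_depth _ _) (or_sub _ _)
    refine ⟨k, _, rfl, ?_⟩
    have hcast : ∀ j : Fin k, a (Fin.castLE (by omega) j) = a j := fun j => by
      congr 1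
    rcases falsifies hqN fun e => s (a.symm e) with ⟨v, hv⟩ | ⟨e, f, hef, hd, he, hf⟩
    · left
      refine ⟨v, fun e he => ⟨a.symm e, ?_⟩⟩
      rw [hcast, Equiv.apply_symm_apply, hv e he]
      rfl
    · right
      refine ⟨e, f, hef, hd, ⟨a.symm e, ?_⟩, a.symm f, ?_⟩
      · rw [hcast, Equiv.apply_symm_apply, he]
        rfl
      · rw [hcast, Equiv.apply_symm_apply, hf]
        rfl
  | succ r ih =>
    intro k hk s
    set x : Var q N := a ⟨k, by omega⟩ with hx
    have h0 := ih (k + 1) (by omega) (Fin.snoc (α := fun _ => Bool) s false)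
    have h1 := ih (k + 1) (by omega) (Fin.snoc (α := fun _ => Bool) s true)
    refine derivable_step _ _ _ h0 h1 (or_depth _ _) (or_sub _ _) (.neg (.var x)) ?_ ?_
    · classical
      simp only [Fm.sub, mem_insert, mem_biUnion, mem_univ, true_and]
      right
      refine ⟨Fin.last k, ?_⟩
      rw [Fin.snoc_last]
      have : a (Fin.castLE (by omega) (Fin.last k)) = x := by
        rw [hx]
        congr 1
      rw [this]
      simp [lit, Fm.sub]
    · intro V _ hV0 hV1 hV hVx ht0 ht1
      simp only [RespAt] at hV0 hV1 hV hVx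
      rw [hV]
      obtain ⟨j0, hj0⟩ := hV0.1 ht0
      obtain ⟨j1, hj1⟩ := hV1.1 ht1
      have hlast : a (Fin.castLE (by omega) (Fin.last k)) = x := by
        rw [hx]
        congr 1
      have hc : ∀ j : Fin k, a (Fin.castLE (by omega) (Fin.castSucc j)) =
          a (Fin.castLE (by omega : k ≤ M) j) := fun j => by
        congr 1
      induction j0 using Fin.lastCases with
      | cast j =>
        refine ⟨j, ?_⟩
        rw [Fin.snoc_castSucc, hc] at hj0
        exact hj0
      | last =>
        induction j1 using Fin.lastCases with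
        | cast j =>
          refine ⟨j, ?_⟩
          rw [Fin.snoc_castSucc, hc] at hj1
          exact hj1
        | last =>
          rw [Fin.snoc_last, hlast] at hj0 hj1
          simp only [lit, Bool.false_eq_true, if_false, if_true] at hj0 hj1
          rw [hj1, hj0] at hVx
          exact absurd hVx (by decide)

/-- The counting principle has refutations if `q` does not divide `N`. -/
theorem exists_refutation (p q N : ℕ) (hqN : ¬ q ∣ N) :
    ∃ (T : ℕ) (L : Fin T → Fm p (Var q N)), IsRefutation 4 L ∧ (∀ i, (L i).depth ≤ 2) ∧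
      ∀ χ ∈ allSub L, χ.tops = ∅ := by
  classical
  have h := derivable_clause (p := p) hqN (Fintype.equivFin (Var q N)).symm
    (Fintype.card (Var q N)) 0 (by omega) Fin.elim0
  obtain ⟨T, L, h1, h2, h3, i, hi⟩ := h
  exact ⟨T, L, ⟨⟨i, _, hi⟩, h1⟩, h2, h3⟩

end Pool.Agent.L5helper62.Frege
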