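import Pool.Agent.Helper600R2.Cnt.Final

/-!
Exponential lower bounds for constant-depth Frege proofs of the counting principle modulo `q` with
few `MOD p` connectives.
-/

set_option autoImplicit false

namespace Pool.Agent.L5helper62.Frege

open Finset Filter Pool.Agent.Helper600R2.Cnt

lemma depth_sub {p : ℕ} {α : Type} (φ : Fm p α) : ∀ χ ∈ φ.sub, χ.depth ≤ φ.depth := by
  classical
  induction φ with
  | var a =>
    intro χ hχ
    simp only [Fm.sub, mem_singleton] at hχ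
    rw [hχ]
  | neg φ ih =>
    intro χ hχ
    simp only [Fm.sub, mem_insert] at hχ
    rcases hχ with rfl | hχ
    · exact le_rfl
    · have := ih χ hχ
      simp only [Fm.depth]
      omega
  | or t φs ih =>
    intro χ hχ
    simp only [Fm.sub, mem_insert, mem_biUnion, mem_univ, true_and] at hχ
    rcases hχ with rfl | ⟨j, hj⟩
    · exact le_rfl
    · have h1 := ih j χ hj
      have h2 := Finset.le_sup (f := fun j => (φs j).depth) (mem_univ j)
      simp only [Fm.depth]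
      omega
  | md i t φs ih =>
    intro χ hχ
    simp only [Fm.sub, mem_insert, mem_biUnion, mem_univ, true_and] at hχ
    rcases hχ with rfl | ⟨j, hj⟩
    · exact le_rfl
    · have h1 := ih j χ hj
      have h2 := Finset.le_sup (f := fun j => (φs j).depth) (mem_univ j)
      simp only [Fm.depth]
      omega

lemma depth_allSub {p T : ℕ} {α : Type} (L : Fin T → Fm p α) {d : ℕ}
    (h : ∀ i, (L i).depth ≤ d) : ∀ φ ∈ allSub L, φ.depth ≤ d := by
  classical
  intro φ hφ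
  simp only [allSub, mem_biUnion, mem_univ, true_and] at hφ
  obtain ⟨i, hi⟩ := hφ
  exact (depth_sub (L i) φ hi).trans (h i)

/-- The lower bound in asymptotic form. -/
theorem lower (p q : ℕ) (hp : p.Prime) (hq : 2 ≤ q) (hpq : ¬ p ∣ q) (d c : ℕ) :
    ∃ ε : ℝ, 0 < ε ∧ ∃ N₀ : ℕ, ∀ N : ℕ, N₀ ≤ N →
      ∀ (T : ℕ) (L : Fin T → Fm p (Var q N)), IsRefutation c L →
        (∀ i, (L i).depth ≤ d) →
        (∀ φ ∈ allSub L, (φ.tops.card : ℝ) ≤ (N : ℝ) ^ ε) →
        (2 : ℝ) ^ ((N : ℝ) ^ ε) ≤ ((allSub L).card : ℝ) := by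
  obtain ⟨C, hC0, hC⟩ := count_core p q hp hq hpq d c
  set W : ℕ := (2 * (q * q + q) + 4) ^ d with hW
  have hW0 : 0 < W := by positivity
  set D : ℕ := d + 2 with hD
  set e : ℕ := D * W with he
  have he0 : 0 < e := Nat.mul_pos (by omega) hW0
  have her : (0 : ℝ) < e := by exact_mod_cast he0
  set ε : ℝ := 1 / (2 * e) with hε
  have hε0 : 0 < ε := by positivity
  set C4 : ℕ := (C * (2 * q) ^ D) ^ W with hC4
  have hpow : Tendsto (fun n : ℕ => (n : ℝ) ^ ε) atTop atTop :=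
    (tendsto_rpow_atTop hε0).comp tendsto_natCast_atTop_atTop
  have ev3 : ∀ᶠ n : ℕ in atTop, (4 : ℝ) ≤ (n : ℝ) ^ ε := hpow.eventually_ge_atTop 4
  obtain ⟨n₀, hn₀⟩ := eventually_atTop.mp (ev3.and (eventually_ge_atTop (C4 ^ 2 + 1)))
  refine ⟨ε, hε0, n₀, fun n hn T L href hdepth htops => ?_⟩
  obtain ⟨c3, c2⟩ := hn₀ n hn
  have hn1 : (1 : ℝ) ≤ n := by
    have : 1 ≤ n := by omega
    exact_mod_cast this
  set Y : ℕ := ⌊(n : ℝ) ^ ε⌋₊ + 1 with hY
  have hY1 : (Y : ℝ) ≤ 2 * (n : ℝ) ^ ε := by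
    have := Nat.floor_le (by linarith : 0 ≤ (n : ℝ) ^ ε)
    rw [hY]; push_cast; linarith
  have hY2 : (n : ℝ) ^ ε < Y := by
    rw [hY]; push_cast; exact Nat.lt_floor_add_one _
  have hbig : (C * (q * Y) ^ D) ^ W ≤ n := by
    have h1 : (((C * (q * Y) ^ D) ^ W : ℕ) : ℝ) ≤ (n : ℝ) := by
      push_cast
      have h2 : ((C : ℝ) * (q * Y) ^ D) ^ W ≤ ((C : ℝ) * (q * (2 * (n : ℝ) ^ ε)) ^ D) ^ W := by
        apply pow_le_pow_left₀ (by positivity)
        apply mul_le_mul_of_nonneg_left _ (by positivity)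
        apply pow_le_pow_left₀ (by positivity)
        exact mul_le_mul_of_nonneg_left hY1 (by positivity)
      refine h2.trans ?_
      have h3 : ((C : ℝ) * (q * (2 * (n : ℝ) ^ ε)) ^ D) ^ W =
          (C4 : ℝ) * ((n : ℝ) ^ ε) ^ e := by
        rw [hC4, he, pow_mul ((n : ℝ) ^ ε)]
        push_cast
        rw [← mul_pow]
        congr 1
        ring
      have h4 : ((n : ℝ) ^ ε) ^ e = (n : ℝ) ^ (1 / 2 : ℝ) := by
        rw [← Real.rpow_natCast, ← Real.rpow_mul (by linarith)]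
        congr 1
        rw [hε]; field_simp
      have h5 : (C4 : ℝ) ≤ (n : ℝ) ^ (1 / 2 : ℝ) := by
        calc (C4 : ℝ) = ((C4 : ℝ) ^ (2 : ℝ)) ^ (1 / 2 : ℝ) := by
              rw [← Real.rpow_mul (Nat.cast_nonneg _)]; norm_num
          _ = (((C4 ^ 2 : ℕ) : ℝ)) ^ (1 / 2 : ℝ) := by
              push_cast
              congr 1
              rw [← Real.rpow_natCast]
              norm_num
          _ ≤ (n : ℝ) ^ (1 / 2 : ℝ) := by
              apply Real.rpow_le_rpow (Nat.cast_nonneg _) _ (by norm_num)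
              have : C4 ^ 2 ≤ n := by omega
              exact_mod_cast this
      rw [h3, h4]
      calc (C4 : ℝ) * (n : ℝ) ^ (1 / 2 : ℝ)
          ≤ (n : ℝ) ^ (1 / 2 : ℝ) * (n : ℝ) ^ (1 / 2 : ℝ) := by
            apply mul_le_mul_of_nonneg_right h5 (by positivity)
        _ = (n : ℝ) := by
            rw [← Real.rpow_add (by linarith)]; norm_num
    exact_mod_cast h1
  have hmain := hC n Y (by omega) hbig T L href (depth_allSub L hdepth) (by
    intro φ hφ
    have := Nat.le_floor (htops φ hφ)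
    omega)
  by_contra hcon
  push Not at hcon
  have h1 : (16 : ℝ) ^ Y < ((allSub L).card : ℝ) * 2 ^ (Y - 1) := by exact_mod_cast hmain
  have h2 : (2 : ℝ) ^ ((n : ℝ) ^ ε) ≤ 2 ^ Y := by
    calc (2 : ℝ) ^ ((n : ℝ) ^ ε) ≤ 2 ^ (Y : ℝ) :=
          Real.rpow_le_rpow_of_exponent_le (by norm_num) hY2.le
      _ = 2 ^ Y := Real.rpow_natCast _ _
  have h4 : (2 : ℝ) ^ (Y - 1) ≤ 2 ^ Y := pow_le_pow_right₀ (by norm_num) (Nat.sub_le _ _)
  have h5 : (16 : ℝ) ^ Y < 2 ^ Y * 2 ^ Y := by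
    refine h1.trans_le ?_
    exact mul_le_mul (hcon.le.trans h2) h4 (by positivity) (by positivity)
  have h6 : (2 : ℝ) ^ Y * 2 ^ Y ≤ 16 ^ Y := by
    rw [← mul_pow]
    exact pow_le_pow_left₀ (by norm_num) (by norm_num) _
  linarith

end Pool.Agent.L5helper62.Frege
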